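import Pool.Agent.N352.PJ.Cnt

/-!
# The discriminant and its discriminant (helper568, for project PJ of helper352)

The discriminant of `x ^ (2 g + 1) + a_(2 g - 1) x ^ (2 g - 1) + ... + a_0` is of degree `2 g` in `a_0`, and
the discriminant of this polynomial in `a_0` is of degree `(2 g - 1) (2 g + 1)` in `a_1`.
-/

set_option autoImplicit false

open Polynomial

namespace Pool.Agent.N568.PJ

open Pool.Agent.N352.PJ

/-! ### Functoriality -/

section maps

variable {g : ℕ} {A B : Type} [CommRing A] [CommRing B]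

lemma pol_map (φ : A →+* B) (a : Fin (2 * g) → A) : (pol a).map φ = pol (fun j => φ (a j)) := by
  unfold pol
  rw [Polynomial.map_add, Polynomial.map_pow, map_X, Polynomial.map_sum]
  congr 1
  refine Finset.sum_congr rfl fun j _ => ?_
  rw [Polynomial.map_mul, map_C, Polynomial.map_pow, map_X]

lemma dis_map (φ : A →+* B) (a : Fin (2 * g) → A) : φ (dis a) = dis (fun j => φ (a j)) := by
  unfold dis
  rw [← resultant_map_map, ← derivative_map, pol_map]

lemma Dy_map (φ : A →+* B) (a : Fin (2 * g) → A) : (Dy a).map φ = Dy (fun j => φ (a j)) := by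
  unfold Dy
  have h := dis_map (mapRingHom φ) (fun j : Fin (2 * g) => if (j : ℕ) = 0 then X else C (a j))
  rw [coe_mapRingHom] at h
  rw [h]
  congr 1
  funext j
  split_ifs
  · exact map_X φ
  · exact map_C φ

lemma D2_map (φ : A →+* B) (a : Fin (2 * g) → A) : φ (D2 a) = D2 (fun j => φ (a j)) := by
  unfold D2
  rw [← resultant_map_map, ← derivative_map, Dy_map]

lemma dis_congr {a b : Fin (2 * g) → A} (h : ∀ j, a j = b j) : dis a = dis b := by
  rw [funext h]

lemma D2_congr {a b : Fin (2 * g) → A} (h : ∀ j, a j = b j) : D2 a = D2 b := by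
  rw [funext h]

end maps

/-! ### Scaling -/

section scale

variable {R : Type} [CommRing R] [IsDomain R]

lemma res_scale (f h : R[X]) (m n : ℕ) {t : R} (ht : t ≠ 0) :
    resultant (f.comp (C t * X)) (h.comp (C t * X)) m n = t ^ (m * n) * resultant f h m n := by
  set e : Fin (m + n) → R := fun j => j.addCases (fun j₁ => t ^ (j₁ : ℕ)) (fun j₁ => t ^ (j₁ : ℕ))
    with he
  have key : (sylvester (f.comp (C t * X)) (h.comp (C t * X)) m n) * Matrix.diagonal e =
      Matrix.diagonal (fun i : Fin (m + n) => t ^ (i : ℕ)) * sylvester f h m n := by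
    ext i j
    rw [Matrix.mul_diagonal, Matrix.diagonal_mul]
    induction j using Fin.addCases with
    | left j =>
      simp only [sylvester, Matrix.of_apply, Fin.addCases_left, he]
      split_ifs with h1
      · rw [comp_C_mul_X_coeff, mul_assoc, ← pow_add, Nat.sub_add_cancel h1.1, mul_comm]
      · rw [zero_mul, mul_zero]
    | right j =>
      simp only [sylvester, Matrix.of_apply, Fin.addCases_right, he]
      split_ifs with h1
      · rw [comp_C_mul_X_coeff, mul_assoc, ← pow_add, Nat.sub_add_cancel h1.1, mul_comm]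
      · rw [zero_mul, mul_zero]
  have h2 := congrArg Matrix.det key
  rw [Matrix.det_mul, Matrix.det_mul, Matrix.det_diagonal, Matrix.det_diagonal,
    Fin.prod_univ_add, Fin.prod_univ_add] at h2
  simp only [he, Fin.addCases_left, Fin.addCases_right, Fin.val_castAdd, Fin.val_natAdd,
    pow_add, Finset.prod_mul_distrib, Finset.prod_const, Finset.card_univ, Fintype.card_fin] at h2
  have hP : (∏ i : Fin m, t ^ (i : ℕ)) * (∏ i : Fin n, t ^ (i : ℕ)) ≠ 0 :=
    mul_ne_zero (Finset.prod_ne_zero_iff.2 fun i _ => pow_ne_zero _ ht)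
      (Finset.prod_ne_zero_iff.2 fun i _ => pow_ne_zero _ ht)
  apply mul_right_cancel₀ hP
  unfold resultant
  rw [h2, ← pow_mul]
  ring

variable {g : ℕ}

omit [IsDomain R] in
lemma pol_scale (a : Fin (2 * g) → R) (t : R) :
    (pol (fun j : Fin (2 * g) => t ^ (2 * g + 1 - (j : ℕ)) * a j)).comp (C t * X) =
      C (t ^ (2 * g + 1)) * pol a := by
  unfold pol
  have hs : (∑ j : Fin (2 * g), C (t ^ (2 * g + 1 - (j : ℕ)) * a j) * X ^ (j : ℕ)).comp (C t * X) =
      ∑ j : Fin (2 * g), (C (t ^ (2 * g + 1 - (j : ℕ)) * a j) * X ^ (j : ℕ)).comp (C t * X) :=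
    map_sum (compRingHom (C t * X)) _ _
  rw [add_comp, X_pow_comp, mul_pow, ← C_pow, mul_add, hs, Finset.mul_sum]
  congr 1
  refine Finset.sum_congr rfl fun j _ => ?_
  rw [mul_comp, C_comp, X_pow_comp, mul_pow, ← C_pow]
  have h1 : t ^ (2 * g + 1) = t ^ (2 * g + 1 - (j : ℕ)) * t ^ (j : ℕ) := by
    rw [← pow_add]; congr 1; omega
  rw [h1, C_mul, C_mul]
  ring

omit [IsDomain R] in
lemma deriv_scale {F G : R[X]} {s u : R} (h : F.comp (C s * X) = C u * G) :
    C s * (derivative F).comp (C s * X) = C u * derivative G := by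
  have h1 := congrArg derivative h
  rw [derivative_comp, derivative_C_mul, derivative_C_mul, derivative_X, mul_one] at h1
  exact h1

lemma dis_hom (a : Fin (2 * g) → R) {t : R} (ht : t ≠ 0) :
    dis (fun j : Fin (2 * g) => t ^ (2 * g + 1 - (j : ℕ)) * a j) =
      t ^ ((2 * g + 1) * (2 * g)) * dis a := by
  set b : Fin (2 * g) → R := fun j => t ^ (2 * g + 1 - (j : ℕ)) * a j with hb
  have h1 : (pol b).comp (C t * X) = C (t ^ (2 * g + 1)) * pol a := pol_scale a t
  have h2 := deriv_scale h1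
  have h3 : resultant ((pol b).comp (C t * X)) (C t * (derivative (pol b)).comp (C t * X))
      (2 * g + 1) (2 * g) = resultant (C (t ^ (2 * g + 1)) * pol a)
        (C (t ^ (2 * g + 1)) * derivative (pol a)) (2 * g + 1) (2 * g) := by
    rw [h1, h2]
  rw [resultant_C_mul_right, res_scale _ _ _ _ ht, resultant_C_mul_left, resultant_C_mul_right]
    at h3
  have h4 : t ^ (2 * g + 1) * t ^ ((2 * g + 1) * (2 * g)) ≠ 0 :=
    mul_ne_zero (pow_ne_zero _ ht) (pow_ne_zero _ ht)
  apply mul_left_cancel₀ h4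
  unfold dis
  rw [mul_assoc, h3]
  have h5 : (t ^ (2 * g + 1)) ^ (2 * g) * (t ^ (2 * g + 1)) ^ (2 * g + 1) =
      t ^ (2 * g + 1) * t ^ ((2 * g + 1) * (2 * g)) * t ^ ((2 * g + 1) * (2 * g)) := by ring
  rw [← mul_assoc, h5]
  ring

lemma Dy_hom (a : Fin (2 * g) → R) {t : R} (ht : t ≠ 0) :
    (Dy (fun j : Fin (2 * g) => t ^ (2 * g + 1 - (j : ℕ)) * a j)).comp (C (t ^ (2 * g + 1)) * X) =
      C (t ^ ((2 * g + 1) * (2 * g))) * Dy a := by
  have h := dis_map (compRingHom (C (t ^ (2 * g + 1)) * X)) (fun j : Fin (2 * g) =>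
    if (j : ℕ) = 0 then X else C (t ^ (2 * g + 1 - (j : ℕ)) * a j))
  have h' := dis_hom (R := R[X]) (fun j : Fin (2 * g) => if (j : ℕ) = 0 then X else C (a j))
    (t := C t) (C_ne_zero.2 ht)
  rw [coe_compRingHom_apply] at h
  unfold Dy
  have e : C (t ^ ((2 * g + 1) * (2 * g))) = (C t : R[X]) ^ ((2 * g + 1) * (2 * g)) := C_pow
  rw [h, e, ← h']
  apply dis_congr
  intro j
  rw [coe_compRingHom_apply]
  split_ifs with h1
  · rw [X_comp, h1, Nat.sub_zero, C_pow]
  · rw [C_comp, C_mul, C_pow]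

lemma D2_hom (hg : 1 ≤ g) (a : Fin (2 * g) → R) {t : R} (ht : t ≠ 0) :
    D2 (fun j : Fin (2 * g) => t ^ (2 * g + 1 - (j : ℕ)) * a j) =
      t ^ (2 * g * ((2 * g - 1) * (2 * g + 1))) * D2 a := by
  set b : Fin (2 * g) → R := fun j => t ^ (2 * g + 1 - (j : ℕ)) * a j with hb
  obtain ⟨e, he⟩ : ∃ e, 2 * g = e + 1 := ⟨2 * g - 1, by omega⟩
  have h1 : (Dy b).comp (C (t ^ (2 * g + 1)) * X) = C (t ^ ((2 * g + 1) * (2 * g))) * Dy a :=
    Dy_hom a ht
  have h2 := deriv_scale h1
  have h3 : resultant ((Dy b).comp (C (t ^ (2 * g + 1)) * X))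
      (C (t ^ (2 * g + 1)) * (derivative (Dy b)).comp (C (t ^ (2 * g + 1)) * X))
      (2 * g) (2 * g - 1) = resultant (C (t ^ ((2 * g + 1) * (2 * g))) * Dy a)
        (C (t ^ ((2 * g + 1) * (2 * g))) * derivative (Dy a)) (2 * g) (2 * g - 1) := by
    rw [h1, h2]
  rw [resultant_C_mul_right, res_scale _ _ _ _ (pow_ne_zero _ ht), resultant_C_mul_left,
    resultant_C_mul_right] at h3
  unfold D2
  have h4 : (t ^ (2 * g + 1)) ^ (2 * g) * (t ^ (2 * g + 1)) ^ (2 * g * (2 * g - 1)) ≠ 0 :=
    mul_ne_zero (pow_ne_zero _ (pow_ne_zero _ ht)) (pow_ne_zero _ (pow_ne_zero _ ht))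
  apply mul_left_cancel₀ h4
  rw [mul_assoc, h3]
  have h5 : (t ^ ((2 * g + 1) * (2 * g))) ^ (2 * g - 1) * (t ^ ((2 * g + 1) * (2 * g))) ^ (2 * g) =
      (t ^ (2 * g + 1)) ^ (2 * g) * (t ^ (2 * g + 1)) ^ (2 * g * (2 * g - 1)) *
        t ^ (2 * g * ((2 * g - 1) * (2 * g + 1))) := by
    rw [he, Nat.add_sub_cancel]
    ring
  rw [← mul_assoc, h5]
  ring

end scale

/-! ### Degrees -/

lemma deg_of_hom {R K : Type} [CommRing R] [IsDomain R] [Field K] (ι : R[X] →+* K)
    (hι : Function.Injective ι) (F G : R[X]) (p N : ℕ) (hp : 0 < p)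
    (h : ι G = ι X ^ (p * N) * eval₂ (ι.comp C) ((ι X)⁻¹ ^ p) F) :
    F.natDegree ≤ N ∧ F.coeff N = G.coeff 0 := by
  have hX : ι X ≠ 0 := by
    rw [Ne, map_eq_zero_iff ι hι]
    exact X_ne_zero
  have key : ∀ D, F.natDegree ≤ D → N ≤ D → X ^ (p * (D - N)) * G =
      ∑ i ∈ Finset.range (D + 1), C (F.coeff i) * X ^ (p * (D - i)) := by
    intro D hD hN
    apply hι
    rw [map_mul, map_pow, h, eval₂_eq_sum_range' (ι.comp C) (n := D + 1) (by omega), map_sum,
      Finset.mul_sum, Finset.mul_sum]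
    refine Finset.sum_congr rfl fun i hi => ?_
    have hi' : i ≤ D := by
      rw [Finset.mem_range] at hi; omega
    have e1 : (ι X) ^ (p * (D - N)) * (ι X) ^ (p * N) =
        (ι X) ^ (p * (D - i)) * (ι X) ^ (p * i) := by
      rw [← pow_add, ← pow_add, ← mul_add, ← mul_add, Nat.sub_add_cancel hN,
        Nat.sub_add_cancel hi']
    have e2 : (ι X) ^ (p * i) * ((ι X)⁻¹ ^ p) ^ i = 1 := by
      rw [← pow_mul, inv_pow, mul_inv_cancel₀ (pow_ne_zero _ hX)]
    rw [map_mul, map_pow, RingHom.comp_apply]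
    calc (ι X) ^ (p * (D - N)) * ((ι X) ^ (p * N) * (ι (C (F.coeff i)) * ((ι X)⁻¹ ^ p) ^ i))
        = ((ι X) ^ (p * (D - N)) * (ι X) ^ (p * N)) * (ι (C (F.coeff i)) * ((ι X)⁻¹ ^ p) ^ i) := by
          ring
      _ = ι (C (F.coeff i)) * (ι X) ^ (p * (D - i)) *
            ((ι X) ^ (p * i) * ((ι X)⁻¹ ^ p) ^ i) := by rw [e1]; ring
      _ = ι (C (F.coeff i)) * (ι X) ^ (p * (D - i)) := by rw [e2, mul_one]
  have c0 : ∀ D, F.natDegree ≤ D → N ≤ D → (if D = N then G.coeff 0 else 0) = F.coeff D := by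
    intro D hD hN
    have h1 := congrArg (fun P : R[X] => P.coeff 0) (key D hD hN)
    simp only [coeff_X_pow_mul', finsetSum_coeff, coeff_C_mul, coeff_X_pow] at h1
    rw [Finset.sum_eq_single D] at h1
    · rw [Nat.sub_self, mul_zero, if_pos rfl, mul_one] at h1
      rw [← h1]
      by_cases hDN : D = N
      · rw [if_pos hDN, hDN, Nat.sub_self, mul_zero, if_pos le_rfl, Nat.sub_zero]
      · rw [if_neg hDN, if_neg]
        have : 0 < p * (D - N) := Nat.mul_pos hp (by omega)
        omega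
    · intro i hi hiD
      rw [Finset.mem_range] at hi
      have : 0 < p * (D - i) := Nat.mul_pos hp (by omega)
      rw [if_neg (by omega), mul_zero]
    · intro hD'
      exact absurd (Finset.mem_range.2 (Nat.lt_succ_self D)) hD'
  have hdeg : F.natDegree ≤ N := by
    by_contra hcon
    push Not at hcon
    have h1 := c0 F.natDegree le_rfl hcon.le
    rw [if_neg (by omega)] at h1
    have h2 : F = 0 := by
      rw [← leadingCoeff_eq_zero]
      exact h1.symm
    rw [h2, natDegree_zero] at hcon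
    omega
  refine ⟨hdeg, ?_⟩
  have h1 := c0 N hdeg le_rfl
  rw [if_pos rfl] at h1
  exact h1.symm

/-! ### The first discriminant -/

lemma dis_one (g : ℕ) (R : Type) [CommRing R] (hg : 1 ≤ g) :
    dis (fun j : Fin (2 * g) => if (j : ℕ) = 0 then (1 : R) else 0) =
      (2 * g + 1 : R) ^ (2 * g + 1) := by
  have h1 : pol (fun j : Fin (2 * g) => if (j : ℕ) = 0 then (1 : R) else 0) =
      X ^ (2 * g + 1) + 1 := by
    unfold pol
    rw [Finset.sum_eq_single (⟨0, by omega⟩ : Fin (2 * g))]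
    · simp
    · intro b _ hb
      have hb' : (b : ℕ) ≠ 0 := fun h => hb (Fin.ext h)
      simp [hb']
    · intro h; exact absurd (Finset.mem_univ _) h
  have h2 : derivative (X ^ (2 * g + 1) + 1 : R[X]) = C (2 * g + 1 : R) * X ^ (2 * g) := by
    rw [derivative_add, derivative_one, add_zero, derivative_X_pow]
    push_cast
    rfl
  unfold dis
  rw [h1, h2, resultant_C_mul_right, resultant_X_pow_right _ _ _ ?_]
  · rw [mul_comm (2 * g + 1) (2 * g), mul_assoc 2 g, pow_mul (-1 : R)]
    have h3 : (X ^ (2 * g + 1) + 1 : R[X]).coeff 0 = 1 := by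
      simp [coeff_X_pow]
    rw [h3]
    norm_num
  · refine (natDegree_add_le _ _).trans ?_
    simp [natDegree_X_pow_le]

theorem d1 : S_D1 := by
  intro g R _ _ a hg
  have hev : ∀ {S : Type} [CommRing S] (φ : R[X] →+* S), φ (Dy a) =
      dis (fun j : Fin (2 * g) => if (j : ℕ) = 0 then φ X else φ (C (a j))) := by
    intro S _ φ
    unfold Dy
    rw [dis_map]
    apply dis_congr
    intro j
    split_ifs <;> rfl
  obtain ⟨h1, h2⟩ := deg_of_hom (algebraMap R[X] (FractionRing R[X]))
    (IsFractionRing.injective R[X] (FractionRing R[X])) (Dy a)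
    (dis (fun j : Fin (2 * g) => if (j : ℕ) = 0 then 1 else X ^ (2 * g + 1 - (j : ℕ)) * C (a j)))
    (2 * g + 1) (2 * g) (by omega) (by
      set ι := algebraMap R[X] (FractionRing R[X]) with hι
      have hX : ι X ≠ 0 := by
        rw [Ne, map_eq_zero_iff ι (IsFractionRing.injective R[X] (FractionRing R[X]))]
        exact X_ne_zero
      have e1 : eval₂ (ι.comp C) ((ι X)⁻¹ ^ (2 * g + 1)) (Dy a) =
          dis (fun j : Fin (2 * g) => if (j : ℕ) = 0 then (ι X)⁻¹ ^ (2 * g + 1) else ι (C (a j))) := by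
        have := hev (eval₂RingHom (ι.comp C) ((ι X)⁻¹ ^ (2 * g + 1)))
        rw [coe_eval₂RingHom] at this
        rw [this]
        apply dis_congr
        intro j
        split_ifs
        · rw [eval₂_X]
        · rw [eval₂_C, RingHom.comp_apply]
      rw [e1, ← dis_hom _ hX, dis_map]
      apply dis_congr
      intro j
      split_ifs with hj
      · rw [hj, Nat.sub_zero, map_one, ← mul_pow, mul_inv_cancel₀ hX, one_pow]
      · rw [map_mul, map_pow])
  refine ⟨h1, ⟨1, Or.inl rfl, ?_⟩, fun y => ?_⟩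
  · rw [h2, coeff_zero_eq_eval_zero, ← coe_evalRingHom, dis_map, Int.cast_one, one_mul,
      ← dis_one g R hg]
    apply dis_congr
    intro j
    rw [coe_evalRingHom]
    have hj2 := j.2
    split_ifs with hj
    · rw [eval_one]
    · rw [eval_mul, eval_pow, eval_X, zero_pow (by omega), zero_mul]
  · have := hev (evalRingHom y)
    rw [coe_evalRingHom] at this
    rw [this]
    apply dis_congr
    intro j
    split_ifs
    · rw [eval_X]
    · rw [eval_C]

/-! ### The second discriminant -/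

/-- the discriminant of `x ^ n + z x + y` for `z = 1` -/
lemma Dy_one (g : ℕ) (R : Type) [CommRing R] [IsDomain R] (hg : 1 ≤ g) {N M : R}
    (hN : ((2 * g + 1 : ℕ) : R) = N) (hM : ((2 * g : ℕ) : R) = M) (un : N ≠ 0) (um : IsUnit M) :
    Dy (fun j : Fin (2 * g) => if (j : ℕ) = 1 then (1 : R) else 0) =
      C (N ^ (2 * g + 1)) * X ^ (2 * g) + C (M ^ (2 * g)) := by
  have hNM : N = M + 1 := by rw [← hN, ← hM]; push_cast; ring
  have hNC : ((2 * g + 1 : ℕ) : R[X]) = C N := by rw [← hN]; exact (map_natCast C _).symm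
  set f : R[X][X] := X ^ (2 * g + 1) + (X + C X) with hf
  have h1 : pol (fun j : Fin (2 * g) => if (j : ℕ) = 0 then (X : R[X]) else
      C (if (j : ℕ) = 1 then (1 : R) else 0)) = f := by
    unfold pol
    rw [hf]
    congr 1
    rw [Finset.sum_eq_add (⟨1, by omega⟩ : Fin (2 * g)) (⟨0, by omega⟩ : Fin (2 * g))]
    · simp
    · intro h
      have := congrArg Fin.val h
      simp at this
    · rintro c - ⟨h0, h1⟩
      have h0' : (c : ℕ) ≠ 1 := fun h => h0 (Fin.ext h)
      have h1' : (c : ℕ) ≠ 0 := fun h => h1 (Fin.ext h)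
      simp [h0', h1']
    · intro h; exact absurd (Finset.mem_univ _) h
    · intro h; exact absurd (Finset.mem_univ _) h
  have h2 : derivative f = C (C N) * X ^ (2 * g) + 1 := by
    rw [hf, derivative_add, derivative_add, derivative_X, derivative_C, add_zero,
      derivative_X_pow, hNC, Nat.add_sub_cancel]
  have hd : (derivative f).natDegree ≤ 2 * g := by
    rw [h2]
    refine (natDegree_add_le _ _).trans ?_
    rw [natDegree_one, max_le_iff]
    exact ⟨natDegree_C_mul_X_pow_le _ _, by omega⟩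
  have hc : (derivative f).coeff (2 * g) = C N := by
    rw [h2, coeff_add, coeff_C_mul, coeff_X_pow, if_pos rfl, mul_one, coeff_one,
      if_neg (by omega), add_zero]
  obtain ⟨v, hv⟩ := um.exists_right_inv
  have e1 : C M * C v = (1 : R[X]) := by
    rw [← C_mul, hv, C_1]
  have h3 : C (C N) * f = C (C M) * (X + C (C v * (C N * X))) + derivative f * X := by
    have e2 : C (C M) * C (C v * (C N * X)) = C (C N) * (C X : R[X][X]) := by
      rw [← C_mul, ← C_mul, ← mul_assoc, e1, one_mul]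
    have e3 : (C (C N) : R[X][X]) = C (C M) + 1 := by
      rw [hNM, C_add, C_add, C_1, C_1]
    rw [mul_add (C (C M)), e2, h2, hf, e3]
    ring
  have h4 : resultant (C (C N) * f) (derivative f) (2 * g + 1) (2 * g) =
      (C N) ^ (2 * g) * ((C M) ^ (2 * g) * eval (-(C v * (C N * X))) (derivative f)) := by
    rw [h3, resultant_add_mul_left _ _ _ _ _ (by rw [natDegree_X]; omega) hd,
      add_comm (2 * g) 1, resultant_add_left_deg _ _ _ _ _ ?_, hc, resultant_C_mul_left,
      resultant_X_add_C_left _ _ _ hd]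
    · have e3 : (-1 : R[X]) ^ (2 * g * (2 * g)) = 1 := by
        rw [mul_assoc, pow_mul, neg_one_sq, one_pow]
      rw [e3, one_mul]
    · refine natDegree_C_mul_le _ _ |>.trans ?_
      exact (natDegree_add_le _ _).trans
        (by rw [natDegree_C, max_le_iff]; exact ⟨natDegree_X_le, by omega⟩)
  rw [resultant_C_mul_left] at h4
  have hne : (C N : R[X]) ^ (2 * g) ≠ 0 := pow_ne_zero _ (C_ne_zero.2 un)
  have h5 := mul_left_cancel₀ hne h4
  unfold Dy dis
  rw [h1, h5, h2, eval_add, eval_mul, eval_C, eval_pow, eval_X, eval_one,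
    Even.neg_pow ⟨g, by ring⟩, mul_add, mul_one]
  have e4 : (C M : R[X]) ^ (2 * g) * (C N * (C v * (C N * X)) ^ (2 * g)) =
      C N ^ (2 * g + 1) * X ^ (2 * g) := by
    calc (C M : R[X]) ^ (2 * g) * (C N * (C v * (C N * X)) ^ (2 * g))
        = C N * (C M * C v * (C N * X)) ^ (2 * g) := by
          rw [mul_assoc (C M), mul_pow (C M)]; ring
      _ = _ := by rw [e1, one_mul, mul_pow]; ring
  rw [e4, C_pow, C_pow]

theorem d2 : S_D2 := by
  intro g k R _ _ _ _ a hg hk
  have hev : ∀ {S : Type} [CommRing S] (φ : R[X] →+* S), φ (Dz a) =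
      D2 (fun j : Fin (2 * g) => if (j : ℕ) = 1 then φ X else φ (C (a j))) := by
    intro S _ φ
    unfold Dz
    rw [D2_map]
    apply D2_congr
    intro j
    split_ifs <;> rfl
  obtain ⟨h1, h2⟩ := deg_of_hom (algebraMap R[X] (FractionRing R[X]))
    (IsFractionRing.injective R[X] (FractionRing R[X])) (Dz a)
    (D2 (fun j : Fin (2 * g) => if (j : ℕ) = 1 then 1 else X ^ (2 * g + 1 - (j : ℕ)) * C (a j)))
    (2 * g) ((2 * g - 1) * (2 * g + 1)) (by omega) (by
      set ι := algebraMap R[X] (FractionRing R[X]) with hι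
      have hX : ι X ≠ 0 := by
        rw [Ne, map_eq_zero_iff ι (IsFractionRing.injective R[X] (FractionRing R[X]))]
        exact X_ne_zero
      have e1 : eval₂ (ι.comp C) ((ι X)⁻¹ ^ (2 * g)) (Dz a) =
          D2 (fun j : Fin (2 * g) => if (j : ℕ) = 1 then (ι X)⁻¹ ^ (2 * g) else ι (C (a j))) := by
        have := hev (eval₂RingHom (ι.comp C) ((ι X)⁻¹ ^ (2 * g)))
        rw [coe_eval₂RingHom] at this
        rw [this]
        apply D2_congr
        intro j
        split_ifs
        · rw [eval₂_X]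
        · rw [eval₂_C, RingHom.comp_apply]
      rw [e1, ← D2_hom hg _ hX, D2_map]
      apply D2_congr
      intro j
      split_ifs with hj
      · rw [hj, map_one, Nat.add_sub_cancel, ← mul_pow, mul_inv_cancel₀ hX, one_pow]
      · rw [map_mul, map_pow])
  refine ⟨h1, ?_, fun y => ?_⟩
  · have h3 : (Dz a).coeff ((2 * g - 1) * (2 * g + 1)) =
        D2 (fun j : Fin (2 * g) => if (j : ℕ) = 1 then (1 : R) else 0) := by
      rw [h2, coeff_zero_eq_eval_zero, ← coe_evalRingHom, D2_map]
      apply D2_congr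
      intro j
      rw [coe_evalRingHom]
      have hj2 := j.2
      split_ifs with hj
      · rw [eval_one]
      · rw [eval_mul, eval_pow, eval_X, zero_pow (by omega), zero_mul]
    have hn : ((2 * g + 1 : ℕ) : k) ≠ 0 := by
      intro h0
      apply hk
      obtain ⟨c, hc⟩ := Nat.dvd_factorial (by omega : 0 < 2 * g + 1) le_rfl
      rw [hc, Nat.cast_mul, h0, zero_mul]
    have hm : ((2 * g : ℕ) : k) ≠ 0 := by
      intro h0
      apply hk
      obtain ⟨c, hc⟩ := Nat.dvd_factorial (by omega : 0 < 2 * g) (by omega : 2 * g ≤ 2 * g + 1)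
      rw [hc, Nat.cast_mul, h0, zero_mul]
    obtain ⟨N, hN⟩ : ∃ N : R, ((2 * g + 1 : ℕ) : R) = N := ⟨_, rfl⟩
    obtain ⟨M, hM⟩ : ∃ M : R, ((2 * g : ℕ) : R) = M := ⟨_, rfl⟩
    have un : IsUnit N := by
      have := (isUnit_iff_ne_zero.2 hn).map (algebraMap k R)
      rwa [map_natCast, hN] at this
    have um : IsUnit M := by
      have := (isUnit_iff_ne_zero.2 hm).map (algebraMap k R)
      rwa [map_natCast, hM] at this
    rw [h3]
    unfold D2
    rw [Dy_one g R hg hN hM un.ne_zero um]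
    have h4 : derivative (C (N ^ (2 * g + 1)) * X ^ (2 * g) + C (M ^ (2 * g))) =
        C (N ^ (2 * g + 1) * M) * X ^ (2 * g - 1) := by
      rw [derivative_add, derivative_C, add_zero, derivative_C_mul, derivative_X_pow, hM, C_mul,
        mul_assoc]
    rw [h4, resultant_C_mul_right, resultant_X_pow_right _ _ _ ?_]
    · have h5 : (C (N ^ (2 * g + 1)) * X ^ (2 * g) + C (M ^ (2 * g))).coeff 0 = M ^ (2 * g) := by
        rw [coeff_add, coeff_C_mul, coeff_X_pow, if_neg (by omega), mul_zero, zero_add, coeff_C_zero]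
      rw [h5]
      exact (((un.pow _).mul um).pow _).mul (((isUnit_one.neg).pow _).mul ((um.pow _).pow _))
    · refine (natDegree_add_le _ _).trans ?_
      rw [natDegree_C, max_le_iff]
      exact ⟨natDegree_C_mul_X_pow_le _ _, by omega⟩
  · have := hev (evalRingHom y)
    rw [coe_evalRingHom] at this
    rw [this]
    apply D2_congr
    intro j
    split_ifs
    · rw [eval_X]
    · rw [eval_C]

end Pool.Agent.N568.PJ
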